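import Mathlib

/-!
# Mellin transforms of `log^j u * log^i (1 - u)` and of `log^i v * (1 - v)^(s - 1)` on the unit interval
-/

set_option autoImplicit false

open Filter Topology Set MeasureTheory Complex Asymptotics

namespace Pool.Agent.R352.NI

/-- powers of the logarithm are small -/
lemma log_bound (k : ℕ) {e : ℝ} (he : 0 < e) : ∃ C : ℝ, 0 ≤ C ∧ ∀ x ∈ Ioc (0 : ℝ) 1, |Real.log x| ^ k ≤ C * x ^ (-e) := by
  rcases Nat.eq_zero_or_pos k with rfl | hk
  · refine ⟨1, zero_le_one, fun x hx => ?_⟩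
    rw [pow_zero, one_mul]
    exact Real.one_le_rpow_of_pos_of_le_one_of_nonpos hx.1 hx.2 (by linarith)
  · have hk' : (0 : ℝ) < k := by exact_mod_cast hk
    refine ⟨(k / e) ^ k, by positivity, fun x hx => ?_⟩
    have h1 := Real.abs_log_mul_self_rpow_lt x (e / k) hx.1 hx.2 (by positivity)
    rw [abs_mul, abs_of_pos (Real.rpow_pos_of_pos hx.1 _), one_div, inv_div] at h1
    have h2 : |Real.log x| ≤ k / e * x ^ (-(e / k)) := by
      rw [Real.rpow_neg hx.1.le, ← div_eq_mul_inv, le_div_iff₀ (Real.rpow_pos_of_pos hx.1 _)]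
      exact h1.le
    calc |Real.log x| ^ k ≤ (k / e * x ^ (-(e / k))) ^ k := pow_le_pow_left₀ (abs_nonneg _) h2 k
      _ = (k / e) ^ k * x ^ (-e) := by
        rw [mul_pow, ← Real.rpow_natCast (x ^ (-(e / k))), ← Real.rpow_mul hx.1.le]
        congr 2
        field_simp

/-- functions on `(0, 1)` extended by zero -/
noncomputable def ext (φ : ℝ → ℝ) (u : ℝ) : ℂ := (((Ioo (0 : ℝ) 1).indicator φ u : ℝ) : ℂ)

lemma ext_of_mem {φ : ℝ → ℝ} {u : ℝ} (hu : u ∈ Ioo (0 : ℝ) 1) : ext φ u = (φ u : ℂ) := by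
  rw [ext, indicator_of_mem hu]

lemma ext_of_notMem {φ : ℝ → ℝ} {u : ℝ} (hu : u ∉ Ioo (0 : ℝ) 1) : ext φ u = 0 := by
  rw [ext, indicator_of_notMem hu, ofReal_zero]

lemma beta_int {a b : ℝ} (ha : 0 < a) (hb : 0 < b) :
    IntegrableOn (fun u : ℝ => u ^ (a - 1) * (1 - u) ^ (b - 1)) (Ioo 0 1) := by
  have h := (betaIntegral_convergent (u := (a : ℂ)) (v := (b : ℂ)) (by simpa using ha) (by simpa using hb))
  rw [intervalIntegrable_iff_integrableOn_Ioo_of_le zero_le_one] at h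
  have h2 : IntegrableOn (fun u : ℝ => ‖(u : ℂ) ^ ((a : ℂ) - 1) * (1 - (u : ℂ)) ^ ((b : ℂ) - 1)‖) (Ioo 0 1) := h.norm
  refine h2.congr_fun (fun u hu => ?_) measurableSet_Ioo
  have h3 : (0 : ℝ) < 1 - u := by linarith [hu.2]
  have e1 : (1 - (u : ℂ)) = ((1 - u : ℝ) : ℂ) := by push_cast; rfl
  have e2 : ((b : ℂ) - 1) = ((b - 1 : ℝ) : ℂ) := by push_cast; rfl
  have e3 : ((a : ℂ) - 1) = ((a - 1 : ℝ) : ℂ) := by push_cast; rfl
  simp only []
  rw [norm_mul, e1, e2, e3, norm_cpow_eq_rpow_re_of_pos hu.1, norm_cpow_eq_rpow_re_of_pos h3, ofReal_re, ofReal_re]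

lemma ext_integrable {φ : ℝ → ℝ} (hφ : ContinuousOn φ (Ioo 0 1)) {a b C : ℝ} (ha : 0 < a) (hb : 0 < b)
    (hbd : ∀ u ∈ Ioo (0 : ℝ) 1, |φ u| ≤ C * (u ^ (a - 1) * (1 - u) ^ (b - 1))) : Integrable (ext φ) := by
  have h1 : IntegrableOn (fun u : ℝ => φ u) (Ioo 0 1) := by
    refine Integrable.mono' ((beta_int ha hb).const_mul C) (hφ.aestronglyMeasurable measurableSet_Ioo) ?_
    filter_upwards [ae_restrict_mem measurableSet_Ioo] with u hu
    exact hbd u hu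
  have h2 : Integrable ((Ioo (0 : ℝ) 1).indicator φ) := (integrable_indicator_iff measurableSet_Ioo).2 h1
  exact h2.ofReal

lemma ext_top (φ : ℝ → ℝ) (a : ℝ) : ext φ =O[atTop] (fun t : ℝ => t ^ (-a)) := by
  refine IsBigO.of_bound 1 ?_
  filter_upwards [eventually_ge_atTop (1 : ℝ)] with t ht
  rw [ext_of_notMem (fun h => absurd h.2 (by linarith)), norm_zero]
  positivity

lemma ext_log (φ : ℝ → ℝ) : (fun t : ℝ => Real.log t • ext φ t) = ext (fun u => Real.log u * φ u) := by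
  funext t
  by_cases ht : t ∈ Ioo (0 : ℝ) 1
  · rw [ext_of_mem ht, ext_of_mem ht, real_smul]
    push_cast
    rfl
  · rw [ext_of_notMem ht, ext_of_notMem ht, smul_zero]

/-- derivative of the Mellin transform -/
lemma ext_deriv {φ : ℝ → ℝ} (hφ : ContinuousOn φ (Ioo 0 1)) {a b C : ℝ} (ha : 0 < a) (hb : 0 < b)
    (hbd : ∀ u ∈ Ioo (0 : ℝ) 1, |φ u| ≤ C * (u ^ (a - 1) * (1 - u) ^ (b - 1)))
    {c D : ℝ} (h0 : ∀ u ∈ Ioo (0 : ℝ) (1 / 2), |φ u| ≤ D * u ^ (-c)) {s : ℂ} (hs : c < s.re) :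
    MellinConvergent (ext (fun u => Real.log u * φ u)) s ∧
      HasDerivAt (mellin (ext φ)) (mellin (ext (fun u => Real.log u * φ u)) s) s := by
  have h := mellin_hasDerivAt_of_isBigO_rpow (f := ext φ) (s := s) (a := s.re + 1) (b := c)
    ((ext_integrable hφ ha hb hbd).locallyIntegrable.locallyIntegrableOn _) (ext_top φ _) (by linarith) ?_ hs
  · rw [ext_log] at h
    exact h
  · refine IsBigO.of_bound D ?_
    filter_upwards [Ioo_mem_nhdsGT (show (0 : ℝ) < 1 / 2 by norm_num)] with u hu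
    rw [ext_of_mem ⟨hu.1, by linarith [hu.2]⟩, norm_real, Real.norm_eq_abs, Real.norm_eq_abs,
      abs_of_pos (Real.rpow_pos_of_pos hu.1 _)]
    exact h0 u hu

/-! ### first family -/

/-- `log^j u * log^i (1 - u)` -/
noncomputable def fa (i j : ℕ) (u : ℝ) : ℝ := Real.log u ^ j * Real.log (1 - u) ^ i

lemma fa_succ (i j : ℕ) : (fun u => Real.log u * fa i j u) = fa i (j + 1) := by
  funext u
  rw [fa, fa, pow_succ]
  ring

lemma fa_cont (i j : ℕ) : ContinuousOn (fa i j) (Ioo 0 1) := by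
  refine ContinuousOn.mul ((Real.continuousOn_log.mono ?_).pow j) (ContinuousOn.pow ?_ i)
  · intro u hu
    exact hu.1.ne'
  · refine ContinuousOn.log (by fun_prop) ?_
    intro u hu
    have := hu.2
    linarith

lemma fa_bound (i j : ℕ) : ∃ C : ℝ, ∀ u ∈ Ioo (0 : ℝ) 1, |fa i j u| ≤ C * (u ^ ((1 / 2 : ℝ) - 1) * (1 - u) ^ ((1 / 2 : ℝ) - 1)) := by
  obtain ⟨C, hC, h1⟩ := log_bound j (e := 1 / 2) (by norm_num)
  obtain ⟨D, hD, h2⟩ := log_bound i (e := 1 / 2) (by norm_num)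
  refine ⟨C * D, fun u hu => ?_⟩
  have hu' : 1 - u ∈ Ioc (0 : ℝ) 1 := ⟨by linarith [hu.2], by linarith [hu.1]⟩
  rw [fa, abs_mul, abs_pow, abs_pow]
  have e : (1 / 2 : ℝ) - 1 = -(1 / 2) := by norm_num
  rw [e]
  calc |Real.log u| ^ j * |Real.log (1 - u)| ^ i ≤ (C * u ^ (-(1 / 2 : ℝ))) * (D * (1 - u) ^ (-(1 / 2 : ℝ))) :=
        mul_le_mul (h1 u ⟨hu.1, hu.2.le⟩) (h2 _ hu') (by positivity) (by have := hu.1; positivity)
    _ = _ := by ring

/-- near `0` -/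
lemma fa_zero (i j : ℕ) (hi : 1 ≤ i) {e : ℝ} (he : 0 < e) :
    ∃ D : ℝ, ∀ u ∈ Ioo (0 : ℝ) (1 / 2), |fa i j u| ≤ D * u ^ (-(-(1 - e))) := by
  obtain ⟨C, hC, h1⟩ := log_bound j (e := e) he
  refine ⟨C * 2 ^ i, fun u hu => ?_⟩
  have hu0 := hu.1
  have hu1 : u < 1 := by linarith [hu.2]
  have h2 : |Real.log (1 - u)| ≤ 2 * u := by
    have h3 : Real.log (1 - u) ≤ 0 := Real.log_nonpos (by linarith) (by linarith)
    rw [abs_of_nonpos h3]
    have h4 := Real.one_sub_inv_le_log_of_pos (show 0 < 1 - u by linarith)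
    have h5 : (1 - u)⁻¹ ≤ 1 + 2 * u := by
      rw [inv_eq_one_div, div_le_iff₀ (by linarith)]
      nlinarith [hu.2]
    linarith
  have h3 : |Real.log (1 - u)| ^ i ≤ 2 ^ i * u := by
    calc |Real.log (1 - u)| ^ i ≤ (2 * u) ^ i := pow_le_pow_left₀ (abs_nonneg _) h2 i
      _ = 2 ^ i * u ^ i := by rw [mul_pow]
      _ ≤ 2 ^ i * u := by
        refine mul_le_mul_of_nonneg_left ?_ (by positivity)
        calc u ^ i ≤ u ^ 1 := pow_le_pow_of_le_one hu0.le hu1.le hi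
          _ = u := pow_one u
  rw [fa, abs_mul, abs_pow, abs_pow]
  calc |Real.log u| ^ j * |Real.log (1 - u)| ^ i ≤ (C * u ^ (-e)) * (2 ^ i * u) :=
        mul_le_mul (h1 u ⟨hu0, hu1.le⟩) h3 (by positivity) (by positivity)
    _ = C * 2 ^ i * (u ^ (-e) * u ^ (1 : ℝ)) := by rw [Real.rpow_one]; ring
    _ = C * 2 ^ i * u ^ (-(-(1 - e))) := by
      rw [← Real.rpow_add hu0]
      congr 2
      ring

/-- derivatives of the Mellin transforms, `i ≥ 1` -/
lemma fa_deriv (i j : ℕ) (hi : 1 ≤ i) {s : ℂ} (hs : -1 < s.re) :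
    HasDerivAt (mellin (ext (fa i j))) (mellin (ext (fa i (j + 1))) s) s := by
  obtain ⟨C, hC⟩ := fa_bound i j
  have he : 0 < (1 + s.re) / 2 := by linarith
  obtain ⟨D, hD⟩ := fa_zero i j hi he
  have h := (ext_deriv (fa_cont i j) (by norm_num) (by norm_num) hC hD (s := s) (by linarith)).2
  rw [fa_succ] at h
  exact h

/-! ### second family -/

/-- `log^i v * (1 - v)^(s - 1)` -/
noncomputable def fb (s : ℝ) (i : ℕ) (v : ℝ) : ℝ := Real.log v ^ i * (1 - v) ^ (s - 1)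

lemma fb_succ (s : ℝ) (i : ℕ) : (fun u => Real.log u * fb s i u) = fb s (i + 1) := by
  funext u
  rw [fb, fb, pow_succ]
  ring

lemma fb_cont (s : ℝ) (i : ℕ) : ContinuousOn (fb s i) (Ioo 0 1) := by
  refine ContinuousOn.mul ((Real.continuousOn_log.mono ?_).pow i) (ContinuousOn.rpow_const (by fun_prop) ?_)
  · intro u hu
    exact hu.1.ne'
  · intro u hu
    left
    have := hu.2
    linarith

lemma fb_bound (s : ℝ) (i : ℕ) {e : ℝ} (he : 0 < e) :
    ∃ C : ℝ, 0 ≤ C ∧ ∀ u ∈ Ioo (0 : ℝ) 1, |fb s i u| ≤ C * (u ^ ((1 - e) - 1) * (1 - u) ^ (s - 1)) := by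
  obtain ⟨C, hC, h1⟩ := log_bound i he
  refine ⟨C, hC, fun u hu => ?_⟩
  have hu' : 0 < 1 - u := by linarith [hu.2]
  have e1 : (1 - e) - 1 = -e := by ring
  rw [fb, abs_mul, abs_pow, abs_of_pos (Real.rpow_pos_of_pos hu' _), e1, ← mul_assoc]
  exact mul_le_mul_of_nonneg_right (h1 u ⟨hu.1, hu.2.le⟩) (Real.rpow_nonneg hu'.le _)

lemma fb_zero (s : ℝ) (i : ℕ) {e : ℝ} (he : 0 < e) :
    ∃ D : ℝ, ∀ u ∈ Ioo (0 : ℝ) (1 / 2), |fb s i u| ≤ D * u ^ (-e) := by
  obtain ⟨C, hC, h1⟩ := fb_bound s i he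
  refine ⟨C * max 1 ((1 / 2 : ℝ) ^ (s - 1)), fun u hu => ?_⟩
  have hu0 := hu.1
  have hu1 : u < 1 := by linarith [hu.2]
  have h2 := h1 u ⟨hu0, hu1⟩
  have e1 : (1 - e) - 1 = -e := by ring
  rw [e1] at h2
  have h3 : (1 - u) ^ (s - 1) ≤ max 1 ((1 / 2 : ℝ) ^ (s - 1)) := by
    rcases le_total 0 (s - 1) with h | h
    · exact le_max_of_le_left (Real.rpow_le_one (by linarith) (by linarith) h)
    · exact le_max_of_le_right (Real.rpow_le_rpow_of_nonpos (by norm_num) (by linarith [hu.2]) h)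
  calc |fb s i u| ≤ C * (u ^ (-e) * (1 - u) ^ (s - 1)) := h2
    _ ≤ C * (u ^ (-e) * max 1 ((1 / 2 : ℝ) ^ (s - 1))) := by
      refine mul_le_mul_of_nonneg_left (mul_le_mul_of_nonneg_left h3 (by positivity)) hC
    _ = _ := by ring

/-- derivatives of the Mellin transforms of the second family -/
lemma fb_deriv {s : ℝ} (hs : 0 < s) (i : ℕ) {z : ℂ} (hz : 0 < z.re) :
    HasDerivAt (mellin (ext (fb s i))) (mellin (ext (fb s (i + 1))) z) z := by
  obtain ⟨C, -, hC⟩ := fb_bound s i (e := 1 / 2) (by norm_num)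
  obtain ⟨D, hD⟩ := fb_zero s i (half_pos hz)
  have h := (ext_deriv (fb_cont s i) (by norm_num) hs hC hD (s := z) (by linarith)).2
  rw [fb_succ] at h
  exact h

/-- Mellin transforms of extensions as integrals over `(0, 1)` -/
lemma mellin_ext (φ : ℝ → ℝ) (s : ℂ) : mellin (ext φ) s = ∫ u in (0 : ℝ)..1, (u : ℂ) ^ (s - 1) * (φ u : ℂ) := by
  rw [mellin, intervalIntegral.integral_of_le zero_le_one, integral_Ioc_eq_integral_Ioo,
    ← integral_indicator measurableSet_Ioi, ← integral_indicator measurableSet_Ioo]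
  congr 1
  funext u
  by_cases hu : u ∈ Ioo (0 : ℝ) 1
  · rw [indicator_of_mem hu, indicator_of_mem (show u ∈ Ioi (0 : ℝ) from hu.1), ext_of_mem hu, smul_eq_mul]
  · rw [indicator_of_notMem hu]
    by_cases hu' : u ∈ Ioi (0 : ℝ)
    · rw [indicator_of_mem hu', ext_of_notMem hu, smul_zero]
    · rw [indicator_of_notMem hu']

/-- the zeroth member: the beta function -/
lemma fb_base {s : ℝ} (hs : 0 < s) {z : ℂ} (hz : 0 < z.re) :
    mellin (ext (fb s 0)) z = Gamma z * Gamma s / Gamma (z + s) := by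
  have h1 := Gamma_mul_Gamma_eq_betaIntegral hz (show 0 < (s : ℂ).re by simpa using hs)
  have h2 : Gamma (z + s) ≠ 0 := Gamma_ne_zero_of_re_pos (by simp; linarith)
  rw [h1, mul_div_cancel_left₀ _ h2, mellin_ext, betaIntegral]
  refine intervalIntegral.integral_congr_ae ?_
  filter_upwards with u hu
  rw [uIoc_of_le zero_le_one] at hu
  congr 1
  rw [fb, pow_zero, one_mul, ofReal_cpow (by linarith [hu.2])]
  push_cast
  rfl

/-- the substitution `u = 1 - v` -/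
lemma fa_fb {s : ℝ} (i : ℕ) : mellin (ext (fa i 0)) (s : ℂ) = mellin (ext (fb s i)) 1 := by
  rw [mellin_ext, mellin_ext]
  have h := intervalIntegral.integral_comp_sub_left (a := 0) (b := 1)
    (fun u : ℝ => (u : ℂ) ^ ((s : ℂ) - 1) * ((fa i 0 u : ℝ) : ℂ)) 1
  simp only [sub_self, sub_zero] at h
  rw [← h]
  refine intervalIntegral.integral_congr_ae ?_
  filter_upwards with v hv
  rw [uIoc_of_le zero_le_one] at hv
  have e1 : ((s : ℂ) - 1) = ((s - 1 : ℝ) : ℂ) := by push_cast; rfl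
  rw [fa, fb, pow_zero, one_mul, sub_sub_cancel, sub_self, cpow_zero, one_mul, e1, ← ofReal_cpow (by linarith [hv.2])]
  push_cast
  ring

end Pool.Agent.R352.NI
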