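import Pool.Agent.R352.NI.Val

/-!
# The symmetric logarithmic integrals
-/

set_option autoImplicit false

open Filter Topology Set MeasureTheory

namespace Pool.Agent.R352.NI

open Pool.Agent.R352.E

lemma iisum {a b : ℝ} (s : Finset ℕ) (f : ℕ → ℝ → ℝ) (h : ∀ i ∈ s, IntervalIntegrable (f i) volume a b) :
    IntervalIntegrable (fun u => ∑ i ∈ s, f i u) volume a b := by
  have h1 := IntervalIntegrable.sum s h
  have h2 : (∑ i ∈ s, f i) = fun u => ∑ i ∈ s, f i u := by
    ext u
    rw [Finset.sum_apply]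
  rw [h2] at h1
  exact h1

/-- convergence -/
lemma fa_int (i j : ℕ) : IntervalIntegrable (fa i j) volume 0 1 := by
  obtain ⟨C, hC⟩ := fa_bound i j
  rw [intervalIntegrable_iff_integrableOn_Ioo_of_le zero_le_one]
  refine Integrable.mono' ((beta_int (a := 1 / 2) (b := 1 / 2) (by norm_num) (by norm_num)).const_mul C)
    ((fa_cont i j).aestronglyMeasurable measurableSet_Ioo) ?_
  filter_upwards [ae_restrict_mem measurableSet_Ioo] with u hu
  exact hC u hu

lemma fa_div_int (i j : ℕ) (hi : 1 ≤ i) : IntervalIntegrable (fun u => fa i j u / u) volume 0 1 := by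
  obtain ⟨C, hC⟩ := fa_bound i j
  obtain ⟨D, hD⟩ := fa_zero i j hi (e := 1 / 2) (by norm_num)
  rw [intervalIntegrable_iff_integrableOn_Ioo_of_le zero_le_one]
  have hb := beta_int (a := 1 / 2) (b := 1 / 2) (by norm_num) (by norm_num)
  refine Integrable.mono' (hb.const_mul (2 * |C| + |D|))
    (((fa_cont i j).div continuousOn_id (fun u hu => hu.1.ne')).aestronglyMeasurable measurableSet_Ioo) ?_
  filter_upwards [ae_restrict_mem measurableSet_Ioo] with u hu
  have hu0 := hu.1
  have hu1 : 0 < 1 - u := by linarith [hu.2]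
  rw [norm_div, Real.norm_eq_abs, Real.norm_eq_abs, abs_of_pos hu0, div_le_iff₀ hu0]
  have e1 : (1 / 2 : ℝ) - 1 = -(1 / 2) := by norm_num
  have hw : 0 < u ^ ((1 / 2 : ℝ) - 1) * (1 - u) ^ ((1 / 2 : ℝ) - 1) := by positivity
  rcases lt_or_ge u (1 / 2) with h | h
  · have h1 := hD u ⟨hu0, h⟩
    have e2 : -(-(1 - (1 / 2 : ℝ))) = 1 / 2 := by norm_num
    rw [e2] at h1
    have h2 : u ^ (1 / 2 : ℝ) = u ^ ((1 / 2 : ℝ) - 1) * u := by
      rw [Real.rpow_sub_one hu0.ne']
      field_simp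
    have h3 : 1 ≤ (1 - u) ^ ((1 / 2 : ℝ) - 1) :=
      Real.one_le_rpow_of_pos_of_le_one_of_nonpos hu1 (by linarith) (by norm_num)
    calc |fa i j u| ≤ D * u ^ (1 / 2 : ℝ) := h1
      _ ≤ |D| * (u ^ ((1 / 2 : ℝ) - 1) * u) := by rw [h2]; exact mul_le_mul_of_nonneg_right (le_abs_self D) (by positivity)
      _ ≤ |D| * ((u ^ ((1 / 2 : ℝ) - 1) * (1 - u) ^ ((1 / 2 : ℝ) - 1)) * u) := by
        refine mul_le_mul_of_nonneg_left ?_ (abs_nonneg _)
        refine mul_le_mul_of_nonneg_right ?_ hu0.le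
        exact le_mul_of_one_le_right (by positivity) h3
      _ ≤ (2 * |C| + |D|) * (u ^ ((1 / 2 : ℝ) - 1) * (1 - u) ^ ((1 / 2 : ℝ) - 1)) * u := by
        have : 0 ≤ 2 * |C| * (u ^ ((1 / 2 : ℝ) - 1) * (1 - u) ^ ((1 / 2 : ℝ) - 1)) * u := by positivity
        linarith
  · have h1 := hC u hu
    calc |fa i j u| ≤ C * (u ^ ((1 / 2 : ℝ) - 1) * (1 - u) ^ ((1 / 2 : ℝ) - 1)) := h1
      _ ≤ |C| * (u ^ ((1 / 2 : ℝ) - 1) * (1 - u) ^ ((1 / 2 : ℝ) - 1)) := mul_le_mul_of_nonneg_right (le_abs_self C) hw.le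
      _ ≤ |C| * (u ^ ((1 / 2 : ℝ) - 1) * (1 - u) ^ ((1 / 2 : ℝ) - 1)) * (2 * u) :=
        le_mul_of_one_le_right (by positivity) (by linarith)
      _ ≤ (2 * |C| + |D|) * (u ^ ((1 / 2 : ℝ) - 1) * (1 - u) ^ ((1 / 2 : ℝ) - 1)) * u := by
        have : 0 ≤ |D| * (u ^ ((1 / 2 : ℝ) - 1) * (1 - u) ^ ((1 / 2 : ℝ) - 1)) * u := by positivity
        linarith

lemma fa_tendsto (i j : ℕ) (hi : 1 ≤ i) : Tendsto (fa i j) (𝓝[>] 0) (𝓝 0) := by
  obtain ⟨D, hD⟩ := fa_zero i j hi (e := 1 / 2) (by norm_num)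
  have e2 : -(-(1 - (1 / 2 : ℝ))) = 1 / 2 := by norm_num
  rw [e2] at hD
  have h1 : Tendsto (fun u : ℝ => D * u ^ (1 / 2 : ℝ)) (𝓝[>] 0) (𝓝 0) := by
    have h2 : ContinuousAt (fun u : ℝ => D * u ^ (1 / 2 : ℝ)) 0 :=
      (Real.continuousAt_rpow_const 0 (1 / 2) (Or.inr (by norm_num))).const_mul D
    have h3 := h2.tendsto.mono_left (nhdsWithin_le_nhds (s := Ioi 0))
    simpa [Real.zero_rpow (show (1 / 2 : ℝ) ≠ 0 by norm_num)] using h3
  refine squeeze_zero_norm' ?_ h1
  filter_upwards [Ioo_mem_nhdsGT (show (0 : ℝ) < 1 / 2 by norm_num)] with u hu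
  exact hD u hu

/-- the function `(c + log (1 - u))^p (c + log u)^q` -/
noncomputable def ab (c : ℝ) (p q : ℕ) (u : ℝ) : ℝ := (c + Real.log (1 - u)) ^ p * (c + Real.log u) ^ q

lemma ab_expand (c : ℝ) (p q : ℕ) (u : ℝ) : ab c p q u =
    ∑ i ∈ Finset.range (p + 1), ∑ j ∈ Finset.range (q + 1),
      ((p.choose i : ℝ) * (q.choose j : ℝ) * c ^ (p - i) * c ^ (q - j)) * fa i j u := by
  rw [ab, add_comm c, add_comm c, add_pow, add_pow, Finset.sum_mul_sum]
  refine Finset.sum_congr rfl fun i _ => Finset.sum_congr rfl fun j _ => ?_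
  rw [fa]
  ring

lemma ab_int (c : ℝ) (p q : ℕ) : IntervalIntegrable (ab c p q) volume 0 1 := by
  have h : ab c p q = fun u => ∑ i ∈ Finset.range (p + 1), ∑ j ∈ Finset.range (q + 1),
      ((p.choose i : ℝ) * (q.choose j : ℝ) * c ^ (p - i) * c ^ (q - j)) * fa i j u := by
    funext u
    exact ab_expand c p q u
  rw [h]
  exact iisum _ _ fun i _ => iisum _ _ fun j _ => (fa_int i j).const_mul _

/-- the function `((c + log (1 - u))^p - c^p) (c + log u)^q` -/
noncomputable def ab' (c : ℝ) (p q : ℕ) (u : ℝ) : ℝ := ((c + Real.log (1 - u)) ^ p - c ^ p) * (c + Real.log u) ^ q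

lemma ab'_expand (c : ℝ) (p q : ℕ) (u : ℝ) : ab' c p q u =
    ∑ i ∈ Finset.range p, ∑ j ∈ Finset.range (q + 1),
      ((p.choose (i + 1) : ℝ) * (q.choose j : ℝ) * c ^ (p - (i + 1)) * c ^ (q - j)) * fa (i + 1) j u := by
  rw [ab', add_comm c, add_comm c, add_pow, add_pow, Finset.sum_range_succ' _ p]
  simp only [pow_zero, Nat.sub_zero, one_mul, Nat.choose_zero_right, Nat.cast_one, mul_one, add_sub_cancel_right]
  rw [Finset.sum_mul_sum]
  refine Finset.sum_congr rfl fun i _ => Finset.sum_congr rfl fun j _ => ?_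
  rw [fa]
  ring

lemma ab'_div_int (c : ℝ) (p q : ℕ) : IntervalIntegrable (fun u => ab' c p q u / u) volume 0 1 := by
  have h : (fun u => ab' c p q u / u) = fun u => ∑ i ∈ Finset.range p, ∑ j ∈ Finset.range (q + 1),
      ((p.choose (i + 1) : ℝ) * (q.choose j : ℝ) * c ^ (p - (i + 1)) * c ^ (q - j)) * (fa (i + 1) j u / u) := by
    funext u
    rw [ab'_expand, Finset.sum_div]
    refine Finset.sum_congr rfl fun i _ => ?_
    rw [Finset.sum_div]
    refine Finset.sum_congr rfl fun j _ => ?_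
    ring
  rw [h]
  exact iisum _ _ fun i _ => iisum _ _ fun j _ => (fa_div_int (i + 1) j (by omega)).const_mul _

lemma ab'_integral (c : ℝ) (p q : ℕ) : ∫ u in (0 : ℝ)..1, ab' c p q u / u =
    ∑ i ∈ Finset.range p, ∑ j ∈ Finset.range (q + 1),
      ((p.choose (i + 1) : ℝ) * (q.choose j : ℝ) * c ^ (p - (i + 1)) * c ^ (q - j)) * SS (i + 1) j := by
  have h : (fun u => ab' c p q u / u) = fun u => ∑ i ∈ Finset.range p, ∑ j ∈ Finset.range (q + 1),
      ((p.choose (i + 1) : ℝ) * (q.choose j : ℝ) * c ^ (p - (i + 1)) * c ^ (q - j)) * (fa (i + 1) j u / u) := by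
    funext u
    rw [ab'_expand, Finset.sum_div]
    refine Finset.sum_congr rfl fun i _ => ?_
    rw [Finset.sum_div]
    refine Finset.sum_congr rfl fun j _ => ?_
    ring
  rw [h, intervalIntegral.integral_finsetSum fun i _ => iisum _ _ fun j _ =>
    (fa_div_int (i + 1) j (by omega)).const_mul _]
  refine Finset.sum_congr rfl fun i _ => ?_
  rw [intervalIntegral.integral_finsetSum fun j _ => (fa_div_int (i + 1) j (by omega)).const_mul _]
  refine Finset.sum_congr rfl fun j _ => ?_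
  rw [intervalIntegral.integral_const_mul, SS]

lemma ab'_tendsto (c : ℝ) (p q : ℕ) : Tendsto (ab' c p q) (𝓝[>] 0) (𝓝 0) := by
  have h : ab' c p q = fun u => ∑ i ∈ Finset.range p, ∑ j ∈ Finset.range (q + 1),
      ((p.choose (i + 1) : ℝ) * (q.choose j : ℝ) * c ^ (p - (i + 1)) * c ^ (q - j)) * fa (i + 1) j u := by
    funext u
    exact ab'_expand c p q u
  rw [h]
  have h2 : Tendsto (fun u => ∑ i ∈ Finset.range p, ∑ j ∈ Finset.range (q + 1),
      ((p.choose (i + 1) : ℝ) * (q.choose j : ℝ) * c ^ (p - (i + 1)) * c ^ (q - j)) * fa (i + 1) j u) (𝓝[>] 0)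
      (𝓝 (∑ i ∈ Finset.range p, ∑ j ∈ Finset.range (q + 1),
      ((p.choose (i + 1) : ℝ) * (q.choose j : ℝ) * c ^ (p - (i + 1)) * c ^ (q - j)) * 0)) :=
    tendsto_finsetSum _ fun i _ => tendsto_finsetSum _ fun j _ => (fa_tendsto (i + 1) j (by omega)).const_mul _
  simpa using h2

/-- the integral of the problem -/
noncomputable def II (n : ℕ) : ℝ := ∫ x in (0 : ℝ)..1, Real.log (1 - x) ^ (n + 1) * Real.log (1 + x) ^ n / (1 + x)

/-- substitution -/
lemma II_eq (n : ℕ) : II n = ∫ u in (1 / 2 : ℝ)..1, ab (Real.log 2) (n + 1) n u / u := by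
  have h := intervalIntegral.integral_comp_mul_sub (a := 1 / 2) (b := 1)
    (fun x : ℝ => Real.log (1 - x) ^ (n + 1) * Real.log (1 + x) ^ n / (1 + x)) (c := 2) (by norm_num) 1
  norm_num at h
  have h2 : II n = 2 * ∫ x in (1 / 2 : ℝ)..1, Real.log (1 - (2 * x - 1)) ^ (n + 1) * Real.log (2 * x) ^ n / (2 * x) := by
    rw [II, h]
    ring
  rw [h2, ← intervalIntegral.integral_const_mul]
  refine intervalIntegral.integral_congr_ae ?_
  have hne : ∀ᵐ u : ℝ, u ≠ 1 := by
    rw [ae_iff]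
    simp
  filter_upwards [hne] with u hu1 hu
  rw [uIoc_of_le (by norm_num)] at hu
  have hu0 : 0 < u := by linarith [hu.1]
  have hu2 : 0 < 1 - u := by
    have := lt_of_le_of_ne hu.2 hu1
    linarith
  have e1 : Real.log (1 - (2 * u - 1)) = Real.log 2 + Real.log (1 - u) := by
    rw [← Real.log_mul (by norm_num) hu2.ne']
    congr 1
    ring
  rw [e1, Real.log_mul (by norm_num) hu0.ne', ab]
  field_simp

/-- the two halves -/
lemma half_one (n : ℕ) : ∫ u in (0 : ℝ)..(1 / 2), ab' (Real.log 2) (n + 1) n u / u = II n := by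
  set c := Real.log 2 with hc
  have hi1 : IntervalIntegrable (fun u => ab' c (n + 1) n u / u) volume 0 (1 / 2) :=
    (ab'_div_int c (n + 1) n).mono_set (by rw [uIcc_of_le zero_le_one, uIcc_of_le (by norm_num)]; exact Icc_subset_Icc le_rfl (by norm_num))
  have hi2 : IntervalIntegrable (fun u => ab c n (n + 1) u * (1 / (1 - u))) volume 0 (1 / 2) := by
    refine ((ab_int c n (n + 1)).mono_set (by rw [uIcc_of_le zero_le_one, uIcc_of_le (by norm_num)]; exact Icc_subset_Icc le_rfl (by norm_num))).mul_continuousOn ?_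
    refine ContinuousOn.div (by fun_prop) (by fun_prop) ?_
    intro u hu
    rw [uIcc_of_le (by norm_num)] at hu
    have := hu.2
    intro h
    linarith
  have hn1 : ((n : ℝ) + 1) ≠ 0 := by positivity
  have key : ∫ u in (0 : ℝ)..(1 / 2), (ab' c (n + 1) n u / u - ab c n (n + 1) u * (1 / (1 - u))) = 0 - 0 := by
    refine intervalIntegral.integral_eq_sub_of_hasDerivAt_of_tendsto (f := fun u => ab' c (n + 1) (n + 1) u / ((n : ℝ) + 1))
      (by norm_num) ?_ (hi1.sub hi2) ?_ ?_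
    · intro u hu
      have hu0 := hu.1
      have hu1 : 0 < 1 - u := by linarith [hu.2]
      have d1 : HasDerivAt (fun u : ℝ => c + Real.log (1 - u)) (-1 / (1 - u)) u := by
        have := ((hasDerivAt_id u).const_sub 1).log hu1.ne'
        exact this.const_add c
      have d2 : HasDerivAt (fun u : ℝ => c + Real.log u) u⁻¹ u := (Real.hasDerivAt_log hu0.ne').const_add c
      have d3 := (((d1.pow (n + 1)).sub_const (c ^ (n + 1))).mul (d2.pow (n + 1))).div_const ((n : ℝ) + 1)
      refine (d3.congr_deriv ?_)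
      rw [ab', ab]
      simp only [Nat.add_sub_cancel, Pi.pow_apply]
      push_cast
      field_simp
      ring
    · have := (ab'_tendsto c (n + 1) (n + 1)).div_const ((n : ℝ) + 1)
      rw [zero_div] at this
      exact this
    · have h1 : ContinuousAt (fun u => ab' c (n + 1) (n + 1) u / ((n : ℝ) + 1)) (1 / 2) := by
        unfold ab'
        refine ContinuousAt.div_const (ContinuousAt.mul (ContinuousAt.sub (ContinuousAt.pow (ContinuousAt.add continuousAt_const
          (ContinuousAt.log (by fun_prop) (by norm_num))) _) continuousAt_const) (ContinuousAt.pow (ContinuousAt.add continuousAt_const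
          (ContinuousAt.log (by fun_prop) (by norm_num))) _)) _
      have h2 := h1.tendsto.mono_left (nhdsWithin_le_nhds (s := Iio (1 / 2)))
      have h3 : c + Real.log (1 / 2) = 0 := by
        rw [one_div, Real.log_inv, hc]
        ring
      simp only [ab', h3, zero_pow (Nat.succ_ne_zero n), mul_zero, zero_div] at h2
      exact h2
  rw [intervalIntegral.integral_sub hi1 hi2, sub_zero] at key
  have h4 : ∫ u in (0 : ℝ)..(1 / 2), ab c n (n + 1) u * (1 / (1 - u)) = II n := by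
    rw [II_eq]
    have h5 := intervalIntegral.integral_comp_sub_left (a := 1 / 2) (b := 1)
      (fun u : ℝ => ab c n (n + 1) u * (1 / (1 - u))) 1
    norm_num at h5
    have h6 : ∫ u in (0 : ℝ)..(1 / 2), ab c n (n + 1) u * (1 / (1 - u)) = ∫ x in (1 / 2 : ℝ)..1, ab c n (n + 1) (1 - x) * x⁻¹ := by
      rw [h5]
      norm_num
    rw [h6]
    refine intervalIntegral.integral_congr fun u _ => ?_
    simp only [ab, sub_sub_cancel]
    ring
  linarith

lemma half_two (n : ℕ) : ∫ u in (1 / 2 : ℝ)..1, ab' (Real.log 2) (n + 1) n u / u =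
    II n - Real.log 2 ^ (n + 1) * (Real.log 2 ^ (n + 1) / ((n : ℝ) + 1)) := by
  set c := Real.log 2 with hc
  have hi1 : IntervalIntegrable (fun u => ab' c (n + 1) n u / u) volume (1 / 2) 1 :=
    (ab'_div_int c (n + 1) n).mono_set (by rw [uIcc_of_le zero_le_one, uIcc_of_le (by norm_num)]; exact Icc_subset_Icc (by norm_num) le_rfl)
  have hcont : ContinuousOn (fun u : ℝ => (c + Real.log u) ^ n / u) (uIcc (1 / 2) 1) := by
    rw [uIcc_of_le (by norm_num)]
    refine ContinuousOn.div (ContinuousOn.pow (ContinuousOn.add continuousOn_const (ContinuousOn.log continuousOn_id ?_)) _) continuousOn_id ?_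
    · intro u hu
      exact (by linarith [hu.1] : (0 : ℝ) < u).ne'
    · intro u hu
      exact (by linarith [hu.1] : (0 : ℝ) < u).ne'
  have hi2 : IntervalIntegrable (fun u : ℝ => (c + Real.log u) ^ n / u) volume (1 / 2) 1 := hcont.intervalIntegrable
  have h1 : ∫ u in (1 / 2 : ℝ)..1, (c + Real.log u) ^ n / u = c ^ (n + 1) / ((n : ℝ) + 1) := by
    have hn1 : ((n : ℝ) + 1) ≠ 0 := by positivity
    rw [intervalIntegral.integral_eq_sub_of_hasDerivAt (f := fun u => (c + Real.log u) ^ (n + 1) / ((n : ℝ) + 1)) ?_ hi2]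
    · have h3 : c + Real.log (1 / 2) = 0 := by
        rw [one_div, Real.log_inv, hc]
        ring
      rw [h3, Real.log_one, add_zero, zero_pow (Nat.succ_ne_zero n)]
      ring
    · intro u hu
      rw [uIcc_of_le (by norm_num)] at hu
      have hu0 : (0 : ℝ) < u := by linarith [hu.1]
      have d2 : HasDerivAt (fun u : ℝ => c + Real.log u) u⁻¹ u := (Real.hasDerivAt_log hu0.ne').const_add c
      have d3 := (d2.pow (n + 1)).div_const ((n : ℝ) + 1)
      refine d3.congr_deriv ?_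
      simp only [Nat.add_sub_cancel]
      push_cast
      field_simp
  have h2 : II n = (∫ u in (1 / 2 : ℝ)..1, ab' c (n + 1) n u / u) + c ^ (n + 1) * ∫ u in (1 / 2 : ℝ)..1, (c + Real.log u) ^ n / u := by
    rw [II_eq, ← intervalIntegral.integral_const_mul, ← intervalIntegral.integral_add hi1 (hi2.const_mul _)]
    refine intervalIntegral.integral_congr fun u _ => ?_
    simp only [ab, ab']
    ring
  rw [h2, h1]
  ring

theorem II_formula (n : ℕ) : II n = ((∫ u in (0 : ℝ)..1, ab' (Real.log 2) (n + 1) n u / u) +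
    Real.log 2 ^ (n + 1) * (Real.log 2 ^ (n + 1) / ((n : ℝ) + 1))) / 2 := by
  have hi1 : IntervalIntegrable (fun u => ab' (Real.log 2) (n + 1) n u / u) volume 0 (1 / 2) :=
    (ab'_div_int _ (n + 1) n).mono_set (by rw [uIcc_of_le zero_le_one, uIcc_of_le (by norm_num)]; exact Icc_subset_Icc le_rfl (by norm_num))
  have hi2 : IntervalIntegrable (fun u => ab' (Real.log 2) (n + 1) n u / u) volume (1 / 2) 1 :=
    (ab'_div_int _ (n + 1) n).mono_set (by rw [uIcc_of_le zero_le_one, uIcc_of_le (by norm_num)]; exact Icc_subset_Icc (by norm_num) le_rfl)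
  rw [← intervalIntegral.integral_add_adjacent_intervals hi1 hi2, half_one, half_two]
  ring

theorem II_mem (A : Subalgebra ℚ ℝ) (hA : ∀ k, 2 ≤ k → zt k ∈ A) (hlog : Real.log 2 ∈ A) (n : ℕ) : II n ∈ A := by
  have hq : ∀ q : ℚ, (q : ℝ) ∈ A := fun q => A.algebraMap_mem q
  rw [II_formula, ab'_integral, div_eq_mul_inv]
  refine A.mul_mem (A.add_mem (A.sum_mem fun i _ => A.sum_mem fun j _ => A.mul_mem (A.mul_mem (A.mul_mem (A.mul_mem
    (natCast_mem A _) (natCast_mem A _)) (A.pow_mem hlog _)) (A.pow_mem hlog _)) (SS_mem A hA (i + 1) j (by omega))) ?_) ?_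
  · rw [div_eq_mul_inv]
    refine A.mul_mem (A.pow_mem hlog _) (A.mul_mem (A.pow_mem hlog _) ?_)
    have := hq (((n : ℚ) + 1)⁻¹)
    push_cast at this
    exact this
  · have := hq ((2 : ℚ)⁻¹)
    push_cast at this
    exact this

end Pool.Agent.R352.NI
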