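import Pool.Agent.R352.NI.Fun
import Pool.Agent.R352.E.Gen

/-!
# The Nielsen integrals `∫ log^i (1 - u) log^j u / u` are polynomials in zeta values
-/

set_option autoImplicit false

open Filter Topology Set MeasureTheory Complex

namespace Pool.Agent.R352.NI

open Pool.Agent.R352.E

/-- `B_i(z) = ∫ v^(z-1) log^i v (1-v)^(s-1)` -/
noncomputable def BB (s : ℝ) (i : ℕ) (z : ℂ) : ℂ := mellin (ext (fb s i)) z

lemma psi_hasDeriv_shift {s : ℝ} (hs : 0 < s) (l : ℕ) {z : ℂ} (hz : 0 < z.re) :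
    HasDerivAt (fun z : ℂ => pd l (z + s)) (pd (l + 1) (z + s)) z := by
  have h1 : 0 < (z + (s : ℂ)).re := by simp; linarith
  have h2 := pd_deriv l h1
  have h3 : HasDerivAt (fun z : ℂ => z + (s : ℂ)) 1 z := (hasDerivAt_id z).add_const _
  have h4 := h2.comp z h3
  rw [mul_one] at h4
  exact h4

/-- the recursion for the second family -/
lemma BB_rec {s : ℝ} (hs : 0 < s) (n : ℕ) : ∀ z : ℂ, 0 < z.re → BB s (n + 1) z =
    ∑ i ∈ Finset.range (n + 1), (n.choose i : ℂ) * (BB s (n - i) z * (pd i z - pd i (z + s))) := by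
  -- uniqueness of derivatives
  have huniq : ∀ (k : ℕ) (F F' : ℂ → ℂ), (∀ z : ℂ, 0 < z.re → BB s k z = F z) →
      (∀ z : ℂ, 0 < z.re → HasDerivAt F (F' z) z) → ∀ z : ℂ, 0 < z.re → BB s (k + 1) z = F' z := by
    intro k F F' hF hF' z hz
    have h1 : HasDerivAt (BB s k) (BB s (k + 1) z) z := fb_deriv hs k hz
    have h2 : HasDerivAt (BB s k) (F' z) z := by
      refine (hF' z hz).congr_of_eventuallyEq ?_
      filter_upwards [isOpen_half.mem_nhds hz] with w hw
      exact hF w hw
    exact h1.unique h2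
  induction n with
  | zero =>
    intro z hz
    have h0 : ∀ z : ℂ, 0 < z.re → BB s 0 z = Gamma z * Gamma s / Gamma (z + s) := fun z hz => fb_base hs hz
    have h1 := huniq 0 (fun z => Gamma z * Gamma s / Gamma (z + s))
      (fun z => Gamma z * Gamma s / Gamma (z + s) * (psi z - psi (z + s))) h0 ?_ z hz
    · rw [h1]
      simp only [Finset.range_one, Finset.sum_singleton, Nat.choose_self, Nat.cast_one, one_mul, Nat.sub_self, zero_add]
      rw [h0 z hz]
      rfl
    · intro z hz
      have hz2 : 0 < (z + (s : ℂ)).re := by simp; linarith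
      have h2 := (Gamma_deriv hz).mul_const (Gamma s)
      have h3 : HasDerivAt (fun z : ℂ => Gamma (z + s)) (Gamma (z + s) * psi (z + s)) z := by
        have h4 : HasDerivAt (fun z : ℂ => z + (s : ℂ)) 1 z := (hasDerivAt_id z).add_const _
        have h5 := (Gamma_deriv hz2).comp z h4
        rw [mul_one] at h5
        exact h5
      have h4 : Gamma (z + s) ≠ 0 := Gamma_ne_zero_of_re_pos hz2
      refine (h2.div h3 h4).congr_deriv ?_
      field_simp
  | succ n ih =>
    refine huniq (n + 1) _ _ ih fun z hz => ?_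
    have h1 := HasDerivAt.sum (u := Finset.range (n + 1))
      (A := fun i (z : ℂ) => (n.choose i : ℂ) * (BB s (n - i) z * (pd i z - pd i (z + s))))
      (fun i _ => ((((fb_deriv hs (n - i) hz : HasDerivAt (BB s (n - i)) (BB s (n - i + 1) z) z)).mul
        ((pd_deriv i hz).sub (psi_hasDeriv_shift hs i hz))).const_mul (n.choose i : ℂ)))
    have h2 : (∑ i ∈ Finset.range (n + 1), fun z : ℂ => (n.choose i : ℂ) * (BB s (n - i) z * (pd i z - pd i (z + s))))
        = fun z : ℂ => ∑ i ∈ Finset.range (n + 1), (n.choose i : ℂ) * (BB s (n - i) z * (pd i z - pd i (z + s))) := by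
      ext y
      rw [Finset.sum_apply]
    rw [h2] at h1
    refine h1.congr_deriv ?_
    have h5 : ∀ k, mellin (ext (fb s k)) z = BB s k z := fun k => rfl
    simp only [mul_add, Pi.sub_apply, h5]
    rw [Finset.sum_add_distrib, Finset.sum_range_succ' _ (n + 1)]
    have h3 : ∑ i ∈ Finset.range (n + 1), ((n + 1).choose (i + 1) : ℂ) * (BB s (n + 1 - (i + 1)) z * (pd (i + 1) z - pd (i + 1) (z + s)))
        = ∑ i ∈ Finset.range (n + 1), (n.choose i : ℂ) * (BB s (n - i) z * (pd (i + 1) z - pd (i + 1) (z + s))) +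
          ∑ i ∈ Finset.range (n + 1), (n.choose (i + 1) : ℂ) * (BB s (n - i) z * (pd (i + 1) z - pd (i + 1) (z + s))) := by
      rw [← Finset.sum_add_distrib]
      refine Finset.sum_congr rfl fun i _ => ?_
      rw [Nat.choose_succ_succ, Nat.add_sub_add_right]
      push_cast
      ring
    rw [h3]
    have h4 : ∑ i ∈ Finset.range (n + 1), (n.choose i : ℂ) * (BB s (n - i + 1) z * (pd i z - pd i (z + s)))
        = ∑ i ∈ Finset.range (n + 1), (n.choose (i + 1) : ℂ) * (BB s (n - i) z * (pd (i + 1) z - pd (i + 1) (z + s)))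
          + ((n + 1).choose 0 : ℂ) * (BB s (n + 1 - 0) z * (pd 0 z - pd 0 (z + s))) := by
      rw [Finset.sum_range_succ' _ n, Finset.sum_range_succ _ n]
      simp only [Nat.choose_succ_self, Nat.cast_zero, zero_mul, add_zero, Nat.choose_zero_right]
      congr 1
      refine Finset.sum_congr rfl fun i hi => ?_
      have : n - (i + 1) + 1 = n - i := by have := Finset.mem_range.1 hi; omega
      rw [this]
    rw [h4]
    ring

/-- `φ_(i,j)(s) = ∫ u^(s-1) log^j u log^i (1-u)` -/
noncomputable def ph (i j : ℕ) (s : ℂ) : ℂ := mellin (ext (fa i j)) s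

lemma ph_zero {s : ℝ} (hs : 0 < s) : ph 0 0 (s : ℂ) = 1 / s := by
  rw [ph, fa_fb, fb_base hs (by simp)]
  have h1 : Gamma (1 + (s : ℂ)) = s * Gamma s := by
    rw [add_comm]
    exact Gamma_add_one _ (by exact_mod_cast hs.ne')
  have h2 : Gamma (s : ℂ) ≠ 0 := Gamma_ne_zero_of_re_pos (by simpa using hs)
  have h3 : (s : ℂ) ≠ 0 := by exact_mod_cast hs.ne'
  rw [h1, Gamma_one]
  field_simp

lemma ph_rec {s : ℝ} (hs : 0 < s) (n : ℕ) : ph (n + 1) 0 (s : ℂ) =
    ∑ i ∈ Finset.range (n + 1), (n.choose i : ℂ) * (ph (n - i) 0 (s : ℂ) * (pd i 1 - pd i (1 + s))) := by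
  have h := BB_rec hs n 1 (by simp)
  unfold ph
  rw [fa_fb, Finset.sum_congr rfl fun i _ => by rw [fa_fb]]
  exact h

/-! ### jets -/

/-- a function on `Re s > -1` with all its derivatives, whose values at `0` lie in `R` -/
structure Jet (R : Subring ℂ) (F : ℕ → ℂ → ℂ) : Prop where
  der : ∀ m (s : ℂ), -1 < s.re → HasDerivAt (F m) (F (m + 1) s) s
  val : ∀ m, F m 0 ∈ R

/-- the product jet -/
noncomputable def jmul (F G : ℕ → ℂ → ℂ) (m : ℕ) (s : ℂ) : ℂ :=
  ∑ i ∈ Finset.range (m + 1), (m.choose i : ℂ) * (F (m - i) s * G i s)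

lemma Jet.mul {R : Subring ℂ} {F G : ℕ → ℂ → ℂ} (hF : Jet R F) (hG : Jet R G) : Jet R (jmul F G) := by
  refine ⟨fun n s hs => ?_, fun m => ?_⟩
  · have h1 := HasDerivAt.sum (u := Finset.range (n + 1))
      (A := fun i (z : ℂ) => (n.choose i : ℂ) * (F (n - i) z * G i z))
      (fun i _ => (((hF.der (n - i) s hs).mul (hG.der i s hs)).const_mul (n.choose i : ℂ)))
    have h2 : (∑ i ∈ Finset.range (n + 1), fun z : ℂ => (n.choose i : ℂ) * (F (n - i) z * G i z))
        = jmul F G n := by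
      ext y
      rw [Finset.sum_apply, jmul]
    rw [h2] at h1
    refine h1.congr_deriv ?_
    simp only [mul_add]
    rw [Finset.sum_add_distrib, jmul, Finset.sum_range_succ' _ (n + 1)]
    have h3 : ∑ i ∈ Finset.range (n + 1), ((n + 1).choose (i + 1) : ℂ) * (F (n + 1 - (i + 1)) s * G (i + 1) s)
        = ∑ i ∈ Finset.range (n + 1), (n.choose i : ℂ) * (F (n - i) s * G (i + 1) s) +
          ∑ i ∈ Finset.range (n + 1), (n.choose (i + 1) : ℂ) * (F (n - i) s * G (i + 1) s) := by
      rw [← Finset.sum_add_distrib]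
      refine Finset.sum_congr rfl fun i _ => ?_
      rw [Nat.choose_succ_succ, Nat.add_sub_add_right]
      push_cast
      ring
    rw [h3]
    have h4 : ∑ i ∈ Finset.range (n + 1), (n.choose i : ℂ) * (F (n - i + 1) s * G i s)
        = ∑ i ∈ Finset.range (n + 1), (n.choose (i + 1) : ℂ) * (F (n - i) s * G (i + 1) s)
          + ((n + 1).choose 0 : ℂ) * (F (n + 1 - 0) s * G 0 s) := by
      rw [Finset.sum_range_succ' _ n, Finset.sum_range_succ _ n]
      simp only [Nat.choose_succ_self, Nat.cast_zero, zero_mul, add_zero, Nat.choose_zero_right]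
      congr 1
      refine Finset.sum_congr rfl fun i hi => ?_
      have : n - (i + 1) + 1 = n - i := by have := Finset.mem_range.1 hi; omega
      rw [this]
    rw [h4]
    ring
  · exact R.sum_mem fun i _ => R.mul_mem (natCast_mem R _) (R.mul_mem (hF.val _) (hG.val _))

lemma Jet.sum {R : Subring ℂ} (n : ℕ) {F : ℕ → ℕ → ℂ → ℂ} (c : ℕ → ℕ) (hF : ∀ i < n, Jet R (F i)) :
    Jet R (fun m s => ∑ i ∈ Finset.range n, (c i : ℂ) * F i m s) := by
  refine ⟨fun m s hs => ?_, fun m => ?_⟩
  · have h1 := HasDerivAt.sum (u := Finset.range n) (A := fun i (z : ℂ) => (c i : ℂ) * F i m z)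
      (fun i hi => ((hF i (Finset.mem_range.1 hi)).der m s hs).const_mul (c i : ℂ))
    have h2 : (∑ i ∈ Finset.range n, fun z : ℂ => (c i : ℂ) * F i m z)
        = fun s => ∑ i ∈ Finset.range n, (c i : ℂ) * F i m s := by
      ext y
      rw [Finset.sum_apply]
    rw [h2] at h1
    exact h1
  · exact R.sum_mem fun i hi => R.mul_mem (natCast_mem R _) ((hF i (Finset.mem_range.1 hi)).val m)

/-- the jets of `ψ^(l)(1) - ψ^(l)(1 + s)` -/
noncomputable def hj (l m : ℕ) (s : ℂ) : ℂ := (if m = 0 then pd l 1 else 0) - pd (l + m) (1 + s)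

lemma hj_jet {R : Subring ℂ} (hR : ∀ k, 2 ≤ k → ((zt k : ℝ) : ℂ) ∈ R) (l : ℕ) : Jet R (hj l) := by
  refine ⟨fun m s hs => ?_, fun m => ?_⟩
  · have h1 : 0 < (1 + s).re := by simp; linarith
    have h3 : HasDerivAt (fun z : ℂ => 1 + z) 1 s := (hasDerivAt_id s).const_add _
    have h4 := (pd_deriv (l + m) h1).comp s h3
    rw [mul_one] at h4
    have h5 := h4.const_sub (if m = 0 then pd l 1 else 0)
    refine h5.congr_deriv ?_
    rw [hj]
    simp [add_assoc]
  · rcases m with _ | m
    · simp [hj, R.zero_mem]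
    · rw [hj, add_zero, if_neg (Nat.succ_ne_zero m), zero_sub]
      refine R.neg_mem ?_
      rw [← add_assoc, pd_one, cc]
      push_cast
      refine R.mul_mem (R.mul_mem (R.pow_mem (R.neg_mem R.one_mem) _) (natCast_mem R _)) (hR _ (by omega))

/-- the jets of `s φ_i(s)` -/
noncomputable def Pj : ℕ → ℕ → ℂ → ℂ
  | 0 => fun m _ => if m = 0 then 1 else 0
  | (n + 1) => fun m s => ∑ i ∈ (Finset.range (n + 1)).attach,
      (n.choose i.1 : ℂ) * jmul (Pj (n - i.1)) (hj i.1) m s
  decreasing_by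
    have := Finset.mem_range.1 i.2
    omega

lemma Pj_succ (n m : ℕ) (s : ℂ) : Pj (n + 1) m s = ∑ i ∈ Finset.range (n + 1), (n.choose i : ℂ) * jmul (Pj (n - i)) (hj i) m s := by
  rw [Pj]
  exact Finset.sum_attach (Finset.range (n + 1)) (fun i => (n.choose i : ℂ) * jmul (Pj (n - i)) (hj i) m s)

lemma Pj_jet {R : Subring ℂ} (hR : ∀ k, 2 ≤ k → ((zt k : ℝ) : ℂ) ∈ R) (n : ℕ) : Jet R (Pj n) := by
  induction n using Nat.strong_induction_on with
  | _ n ih =>
    rcases n with _ | n
    · refine ⟨fun m s _ => ?_, fun m => ?_⟩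
      · rw [Pj]
        simpa using hasDerivAt_const s (if m = 0 then (1 : ℂ) else 0)
      · rw [Pj]
        beta_reduce
        split_ifs
        · exact R.one_mem
        · exact R.zero_mem
    · have h1 : Jet R (fun m s => ∑ i ∈ Finset.range (n + 1), (n.choose i : ℂ) * jmul (Pj (n - i)) (hj i) m s) :=
        Jet.sum (n + 1) (fun i => n.choose i) fun i _ => (ih (n - i) (by omega)).mul (hj_jet hR i)
      have h2 : Pj (n + 1) = fun m s => ∑ i ∈ Finset.range (n + 1), (n.choose i : ℂ) * jmul (Pj (n - i)) (hj i) m s := by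
        funext m s
        exact Pj_succ n m s
      rw [h2]
      exact h1

/-- `s φ_i(s)` is the value of the jet -/
lemma Pj_val {s : ℝ} (hs : 0 < s) (n : ℕ) : (s : ℂ) * ph n 0 (s : ℂ) = Pj n 0 s := by
  induction n using Nat.strong_induction_on with
  | _ n ih =>
    have h3 : (s : ℂ) ≠ 0 := by exact_mod_cast hs.ne'
    rcases n with _ | n
    · rw [ph_zero hs, Pj]
      simp [h3]
    · rw [ph_rec hs n, Pj_succ, Finset.mul_sum]
      refine Finset.sum_congr rfl fun i hi => ?_
      have h1 : jmul (Pj (n - i)) (hj i) 0 (s : ℂ) = Pj (n - i) 0 s * (pd i 1 - pd i (1 + s)) := by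
        simp [jmul, hj]
      rw [h1, ← ih (n - i) (by omega)]
      ring

end Pool.Agent.R352.NI
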