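import Pool.Agent.R352.NI.Jet

/-!
# The values of the Nielsen integrals, and the symmetric logarithmic integrals
-/

set_option autoImplicit false

open Filter Topology Set MeasureTheory Complex

namespace Pool.Agent.R352.NI

open Pool.Agent.R352.E

lemma ph_deriv (n j : ℕ) (hn : 1 ≤ n) {s : ℂ} (hs : -1 < s.re) : HasDerivAt (ph n j) (ph n (j + 1) s) s := fa_deriv n j hn hs

/-- all derivatives -/
lemma Pj_all (n : ℕ) (hn : 1 ≤ n) (m : ℕ) : ∀ s : ℝ, 0 < s →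
    Pj n m s = (s : ℂ) * ph n m s + (m : ℂ) * ph n (m - 1) s := by
  have hR : ∀ k, 2 ≤ k → ((zt k : ℝ) : ℂ) ∈ (⊤ : Subring ℂ) := fun k _ => Subring.mem_top _
  induction m with
  | zero =>
    intro s hs
    rw [← Pj_val hs n]
    simp
  | succ m ih =>
    intro s hs
    have hre : ((s : ℝ) : ℂ).re = s := ofReal_re s
    have h1 : HasDerivAt (fun t : ℝ => Pj n m (t : ℂ)) (Pj n (m + 1) s) s :=
      ((Pj_jet hR n).der m s (by rw [hre]; linarith)).comp_ofReal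
    have h2 : HasDerivAt (fun t : ℝ => ph n m (t : ℂ)) (ph n (m + 1) s) s := (ph_deriv n m hn (by rw [hre]; linarith)).comp_ofReal
    have h3 : HasDerivAt (fun t : ℝ => (m : ℂ) * ph n (m - 1) (t : ℂ)) ((m : ℂ) * ph n m s) s := by
      rcases m with _ | m
      · simpa using hasDerivAt_const s (0 : ℂ)
      · have := (ph_deriv n m hn (s := (s : ℂ)) (by rw [hre]; linarith)).comp_ofReal
        exact this.const_mul _
    have h4 : HasDerivAt (fun t : ℝ => (t : ℂ)) 1 s := ofRealCLM.hasDerivAt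
    have h5 := (h4.mul h2).add h3
    have h6 : HasDerivAt (fun t : ℝ => Pj n m (t : ℂ)) (1 * ph n m s + (s : ℂ) * ph n (m + 1) s + (m : ℂ) * ph n m s) s := by
      refine h5.congr_of_eventuallyEq ?_
      filter_upwards [Ioi_mem_nhds hs] with t ht
      exact ih t ht
    rw [h1.unique h6, Nat.add_sub_cancel]
    push_cast
    ring

/-- the values at `0` -/
lemma ph_zero_val (n : ℕ) (hn : 1 ≤ n) (m : ℕ) : ph n m 0 = Pj n (m + 1) 0 / ((m : ℂ) + 1) := by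
  have hR : ∀ k, 2 ≤ k → ((zt k : ℝ) : ℂ) ∈ (⊤ : Subring ℂ) := fun k _ => Subring.mem_top _
  have h0 : (-1 : ℝ) < (0 : ℂ).re := by simp
  have e0 : ((0 : ℝ) : ℂ) = 0 := ofReal_zero
  have c1 : ContinuousAt (fun t : ℝ => Pj n (m + 1) (t : ℂ)) 0 := by
    have := ((Pj_jet hR n).der (m + 1) 0 h0).continuousAt
    exact ContinuousAt.comp (f := fun t : ℝ => (t : ℂ)) (x := 0) (by rw [e0]; exact this) continuous_ofReal.continuousAt
  have c2 : ∀ k, ContinuousAt (fun t : ℝ => ph n k (t : ℂ)) 0 := by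
    intro k
    have := (ph_deriv n k hn h0).continuousAt
    exact ContinuousAt.comp (f := fun t : ℝ => (t : ℂ)) (x := 0) (by rw [e0]; exact this) continuous_ofReal.continuousAt
  have t1 : Tendsto (fun t : ℝ => Pj n (m + 1) (t : ℂ)) (𝓝[>] 0) (𝓝 (Pj n (m + 1) 0)) := by
    have := c1.tendsto.mono_left (nhdsWithin_le_nhds (s := Ioi 0))
    simpa using this
  have t2 : Tendsto (fun t : ℝ => (t : ℂ) * ph n (m + 1) (t : ℂ) + ((m : ℂ) + 1) * ph n m (t : ℂ)) (𝓝[>] 0)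
      (𝓝 (((0 : ℝ) : ℂ) * ph n (m + 1) ((0 : ℝ) : ℂ) + ((m : ℂ) + 1) * ph n m ((0 : ℝ) : ℂ))) := by
    have := ((continuous_ofReal.continuousAt (x := (0 : ℝ))).mul (c2 (m + 1))).add ((c2 m).const_mul ((m : ℂ) + 1))
    exact this.tendsto.mono_left (nhdsWithin_le_nhds (s := Ioi 0))
  have t3 : Tendsto (fun t : ℝ => Pj n (m + 1) (t : ℂ)) (𝓝[>] 0)
      (𝓝 (((0 : ℝ) : ℂ) * ph n (m + 1) ((0 : ℝ) : ℂ) + ((m : ℂ) + 1) * ph n m ((0 : ℝ) : ℂ))) := by
    refine t2.congr' ?_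
    filter_upwards [self_mem_nhdsWithin] with t ht
    rw [Pj_all n hn (m + 1) t ht, Nat.add_sub_cancel]
    push_cast
    rfl
  have h1 := tendsto_nhds_unique t1 t3
  rw [e0, zero_mul, zero_add] at h1
  have h2 : ((m : ℂ) + 1) ≠ 0 := by exact_mod_cast Nat.succ_ne_zero m
  rw [h1, mul_div_cancel_left₀ _ h2]

/-- the Nielsen integrals -/
noncomputable def SS (i j : ℕ) : ℝ := ∫ u in (0 : ℝ)..1, fa i j u / u

lemma ph_SS (i j : ℕ) : ph i j 0 = ((SS i j : ℝ) : ℂ) := by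
  rw [ph, mellin_ext, SS, ← intervalIntegral.integral_ofReal]
  refine intervalIntegral.integral_congr fun u _ => ?_
  beta_reduce
  rw [zero_sub, cpow_neg_one]
  push_cast
  ring

theorem SS_mem (A : Subalgebra ℚ ℝ) (hA : ∀ k, 2 ≤ k → zt k ∈ A) (i j : ℕ) (hi : 1 ≤ i) : SS i j ∈ A := by
  let R : Subring ℂ := A.toSubring.map ofRealHom
  have hR : ∀ k, 2 ≤ k → ((zt k : ℝ) : ℂ) ∈ R := fun k hk => ⟨zt k, hA k hk, rfl⟩
  obtain ⟨r, hr, hrv⟩ := (Pj_jet hR i).val (j + 1)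
  have h1 := ph_zero_val i hi j
  rw [ph_SS, ← hrv] at h1
  have h2 : ((SS i j : ℝ) : ℂ) = ((r / ((j : ℝ) + 1) : ℝ) : ℂ) := by
    rw [h1]
    push_cast
    rfl
  have h3 : SS i j = r / ((j : ℝ) + 1) := by exact_mod_cast h2
  rw [h3, div_eq_mul_inv]
  refine A.mul_mem hr ?_
  have h4 : ((j : ℝ) + 1)⁻¹ = algebraMap ℚ ℝ (((j : ℚ) + 1)⁻¹) := by
    simp
  rw [h4]
  exact A.algebraMap_mem _

end Pool.Agent.R352.NI
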